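import Pool.Agent.X333.MS.Fin

/-! Rationally connected varieties given by nested sums of high powers of monomials: density of
rational points. -/

set_option autoImplicit false

open AlgebraicGeometry CategoryTheory Pool.Agent.W602.GT Pool.Agent.TH710.ND
  Pool.Agent.TH710.SP Pool.Agent.TH710.WH Pool.Agent.X333.MS

namespace Pool.Agent.Results.MP_b62148_ag.NestedMonomialPoints

/-- Let `k` be a finitely generated field of characteristic zero (for example a number field), `X`
an integral scheme locally of finite type over `k` (for example a smooth projective variety), with
function field `K`. Let `k'` be an algebraically closed extension of `k`, and `L` the function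
field of `X_{k'}` (generated by `K` and `k'`, which are linearly disjoint over `k`). Suppose that `X`
is birational over `k` to a projective variety `V` in `P^n` (generic point `y`) such that `V_{k'}` is
an irreducible component of a projective variety given by equations, over `k'`, which are nested
sums of powers of monomials: at most `h + 1` levels, at most `s` summands at each of them, all
exponents at least `N ≥ (n + 1) (h + 1) (2 s + 1) ^ 5`. If `V_{k'}` is rationally connected, or if
the smooth projective varieties over `k'` with function field `L` have no tensor differentials of
degree `1, ..., B`, for the explicit bound `B = n (n + 1) (h + 1) (2 s + 1) ^ 5`, then `X` is rational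
over `k`, and its `k`-points are dense. -/
theorem result {k : Type} [Field k] [CharZero k]
    (hk : ∃ S : Finset k, IntermediateField.adjoin ℚ (S : Set k) = ⊤)
    {k' : Type} [Field k'] [IsAlgClosed k'] [CharZero k'] [Algebra k k']
    -- equations over `k'`
    {n : ℕ} (hn : 1 ≤ n) {ι : Type} {F : ι → MvPolynomial (Fin (n + 1)) k'} {s N h : ℕ}
    (hF : ∀ e, IsForm (F e) ∧ NestedIn IsMono s N h (F e))
    (hN : (n + 1) * ((h + 1) * (2 * s + 1) ^ 5) ≤ N)
    -- a scheme over `k` with function field `K`
    (X : Scheme.{0}) [IsIntegral X] (f : X ⟶ Spec (CommRingCat.of k)) [LocallyOfFiniteType f]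
    {K : Type} [Field K] [Algebra k K] (hK : HasFunctionField k K X f)
    -- the function field `L` of `X_{k'}`
    {L : Type} [Field L] [Algebra k L] [Algebra k' L] [Algebra K L] [IsScalarTower k k' L]
    [IsScalarTower k K L] (hL : LinDisjoint k k' K L)
    -- a birational map to a projective variety over `k`, a component of `{F = 0}` over `k'`
    {y : Fin (n + 1) → K} (hgen : coords k y = ⊤) {w : ℕ}
    (hy : SubVarU ∅ F L w (fun i => algebraMap K L (y i)))
    (hcomp : IsComponentU ∅ F (fun i => algebraMap K L (y i)))
    (hs : RationallyConnected k' (fun i => algebraMap K L (y i)) ∨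
      NoTensors k' L w (n * ((n + 1) * ((h + 1) * (2 * s + 1) ^ 5)))) :
    PurelyTranscendental k K ∧ RationalPointsDense k X f := by
  have h1 : PurelyTranscendental k K := seven_desc hn hF hN hL hgen hy hcomp (by
    rcases hs with h | h
    · exact Or.inl h
    · exact Or.inr (Or.inr h))
  exact ⟨h1, dense_of_rational hk h1 X f hK⟩

end Pool.Agent.Results.MP_b62148_ag.NestedMonomialPoints
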