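import Pool.Agent.X95T.OD1

/-!
# Potential density of the conic bundle threefolds `u² - a(x) v² = f(x, y)`, `deg_y f ≤ 8`
-/

set_option autoImplicit false

open MvPolynomial

namespace Pool.Agent.Results.MP_b62148_ag.OcticConicThreefolds

variable {k : Type} [Field k]

/-- The polynomial `a(x) v² + f(x, y)` in the variables `x = X 0`, `y = X 1`, `v = X 2`. -/
noncomputable def rhs (a : Polynomial k) (f : Polynomial (Polynomial k)) :
    MvPolynomial (Fin 3) k :=
  Polynomial.aeval (X 0) a * X 2 ^ 2 +
    Polynomial.eval₂ (Polynomial.aeval (X 0 : MvPolynomial (Fin 3) k)).toRingHom (X 1) f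

/-- The polynomial `u² - a(x) v² - f(x, y)` in the variables `u = X 0`, `x = X 1`, `y = X 2`,
`v = X 3`. -/
noncomputable def eqn (a : Polynomial k) (f : Polynomial (Polynomial k)) :
    MvPolynomial (Fin 4) k :=
  X 0 ^ 2 - rename Fin.succ (rhs a f)

/-- Over a finitely generated field `L` (a number field, if `k` is an algebraic closure of `ℚ`),
which contains the coefficients of `a` and `f`, the points of the threefold
`u² - a(x) v² = f(x, y)` with coordinates in `L` are Zariski dense: the polynomials which vanish at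
all of them are the multiples of the equation. -/
theorem result (k : Type) [Field k] [IsAlgClosed k] [CharZero k] (a : Polynomial k) (ha : a ≠ 0)
    (f : Polynomial (Polynomial k)) (hf : f.natDegree ≤ 8) (hf₀ : f ≠ 0) :
    ∃ L : IntermediateField ℚ k, L.FG ∧ (Algebra.IsAlgebraic ℚ k → FiniteDimensional ℚ L) ∧
      (∀ n, a.coeff n ∈ L) ∧ (∀ m n, (f.coeff m).coeff n ∈ L) ∧
      ∀ G : MvPolynomial (Fin 4) k,
        (∀ p : Fin 4 → k, (∀ i, p i ∈ L) → eval p (eqn a f) = 0 → eval p G = 0) →
        eqn a f ∣ G :=
  Pool.Agent.X95T.OC.potdens ha hf hf₀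

end Pool.Agent.Results.MP_b62148_ag.OcticConicThreefolds
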