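import Pool.Agent.X95T.OE1

/-!
# Density of rational points on quadric bundles of degree eight

`V : a₁ w₁² + … + aₘ wₘ² = f(z₁, …, zₙ)`, `m ≥ 2`, `f` of degree at most eight in each variable, over
a field `K` of characteristic zero. If `V` has a `K`-point with `f ≠ 0` at which, for each `j`, one
of two explicit invariants of the Taylor coefficients of `f` in the direction of `z_j` does not
vanish, or the first invariant vanishes identically (`f` is then a constant times a fourth power as
a polynomial in `z_j`), then the `K`-points of `V` are Zariski dense.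
-/

set_option autoImplicit false

open MvPolynomial

namespace Pool.Agent.Results.MP_b62148_ag.OcticQuadricBundles

variable {K : Type} [Field K] {m n : ℕ}

/-- The restriction `f(z + T e_j)` of `f` to a coordinate line, a polynomial in `T`. -/
noncomputable def line (f : MvPolynomial (Fin n) K) (z : Fin n → K) (j : Fin n) : Polynomial K :=
  aeval (fun l => Polynomial.C (z l) + if l = j then Polynomial.X else 0) f

/-- The points of `V` with coordinates in an extension field `k` of `K`. -/
def OnV (a : Fin m → K) (f : MvPolynomial (Fin n) K) {k : Type} [Field k] [Algebra K k]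
    (w : Fin m → k) (z : Fin n → k) : Prop :=
  ∑ i, algebraMap K k (a i) * w i ^ 2 = aeval z f

/-- The invariants of the Taylor coefficients `c 0, c 1, ...` of a polynomial. -/
def J3 (c : ℕ → K) : K := 7 * c 1 ^ 3 - 24 * c 0 * c 1 * c 2 + 32 * c 0 ^ 2 * c 3

/-- The second invariant. -/
def J5 (c : ℕ → K) : K :=
  7 * c 1 ^ 5 - 40 * c 0 * c 1 ^ 3 * c 2 + 160 * c 0 ^ 2 * c 1 ^ 2 * c 3 -
    512 * c 0 ^ 3 * c 1 * c 4 + 1024 * c 0 ^ 4 * c 5

/-- The condition at the point: `f(z) ≠ 0`, and for each `j` one of the invariants of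
`f(z + T e_j)` is not zero, or `J3` vanishes in the direction of `z_j` at all points. -/
def Ordinary (f : MvPolynomial (Fin n) K) (z : Fin n → K) : Prop :=
  eval z f ≠ 0 ∧ ∀ j, J3 (line f z j).coeff ≠ 0 ∨ J5 (line f z j).coeff ≠ 0 ∨
    ∀ y, J3 (line f y j).coeff = 0

/-- The `K`-points are dense: a polynomial which vanishes at the `K`-points of `V` vanishes at the
points of `V` over all extension fields. -/
theorem result (K : Type) [Field K] [CharZero K] {m n : ℕ} (hm : 2 ≤ m) (a : Fin m → K)
    (ha : ∀ i, a i ≠ 0) (f : MvPolynomial (Fin n) K) (hf : ∀ j, f.degreeOf j ≤ 8)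
    (w₀ : Fin m → K) (z₀ : Fin n → K) (hP : OnV a f w₀ z₀) (hP' : Ordinary f z₀)
    (g : MvPolynomial (Fin m ⊕ Fin n) K)
    (hg : ∀ (w : Fin m → K) (z : Fin n → K), OnV a f w z → eval (Sum.elim w z) g = 0)
    (k : Type) [Field k] [Algebra K k] (w : Fin m → k) (z : Fin n → k) (h : OnV a f w z) :
    aeval (Sum.elim w z) g = 0 := by
  have : Nontrivial (Fin m) := Fin.nontrivial_iff_two_le.2 hm
  have hiff : ∀ (w : Fin m → K) (z : Fin n → K), OnV a f w z ↔
      ∑ i, a i * w i ^ 2 = eval z f := by
    intro w z
    unfold OnV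
    rw [aeval_eq_eval]
    rfl
  exact Pool.Agent.X95T.OC.zden' ha hf ((hiff _ _).1 hP) hP'.1 hP'.2
    (fun w z hwz _ => hg w z ((hiff w z).2 hwz)) k w z h

end Pool.Agent.Results.MP_b62148_ag.OcticQuadricBundles
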